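import Pool.Agent.X122.RD2

set_option autoImplicit false

/-! # MP_5207c4_ag: a tuple of root counts with a disconnected set of polynomials

`R4τ 5 τ` is the set `R_{4,5}(τ)` of the problem (definitions in `Pool.Agent.X122.RD1`).
Both `a = (-40, 160, -180, 80, -15)` and `b = (-56, 160, -180, 80, -15)` realise the same tuple
`τ`, and `R_{4,5}(τ)` is not connected: no connected subset contains both.  The two polynomials
are `y (y² - 5)² ± 8` with `y = x - 3`. -/

namespace Pool.Agent.Results.MP_5207c4_ag.TwoComponents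

open Pool.Agent.X122.RD

theorem result :
    ∃ τ : Fin 5 → ℕ × ℕ,
      (![-40, 160, -180, 80, -15] : Fin 5 → ℝ) ∈ R4τ 5 τ ∧
      (![-56, 160, -180, 80, -15] : Fin 5 → ℝ) ∈ R4τ 5 τ ∧
      (∀ S : Set (Fin 5 → ℝ), S ⊆ R4τ 5 τ → IsPreconnected S →
        ¬ ((![-40, 160, -180, 80, -15] : Fin 5 → ℝ) ∈ S ∧
          (![-56, 160, -180, 80, -15] : Fin 5 → ℝ) ∈ S)) ∧
      ¬ (R4τ 5 τ = ∅ ∨ IsConnected (R4τ 5 τ)) := by
  rw [← AB_pos, ← AB_neg]
  refine ⟨τ₀, memA, memB, fun S hS hpre h => no_connected S hS hpre h.1 h.2, ?_⟩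
  rintro (h | h)
  · have := memA
    rw [h] at this
    exact this
  · exact no_connected _ subset_rfl h.isPreconnected memA memB

end Pool.Agent.Results.MP_5207c4_ag.TwoComponents
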